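import Pool.Agent.X189.BS.Stm

/-! Part D of MP_4f027a_co: projection to the natural representation. -/

namespace Pool.Agent.X191.BS

open Equiv Pool.Agent.X189.BS

variable {n : ℕ}

def bef (L : List (Fin (n + 1) × Fin (n + 1))) (x y : Fin (n + 1)) : Prop :=
  (x < y ∧ (x, y) ∉ L) ∨ (y < x ∧ (y, x) ∈ L)

instance (L : List (Fin (n + 1) × Fin (n + 1))) (x y : Fin (n + 1)) : Decidable (bef L x y) := by
  unfold bef; infer_instance

def bad (x y u v : Fin (n + 1)) : Prop := (u = x ∧ v = y) ∨ (u = y ∧ v = x)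

instance (x y u v : Fin (n + 1)) : Decidable (bad x y u v) := by
  unfold bad; infer_instance

def PP (a c : Fin (n + 1)) : Finset (Fin (n + 1) × Fin (n + 1)) :=
  Finset.univ.filter fun p => a < p.1 ∧ p.1 < p.2 ∧ p.2 ≤ c

def stat (a c : Fin (n + 1)) (L : List (Fin (n + 1) × Fin (n + 1))) (g : Perm (Fin (n + 1))) : ℕ :=
  ∑ p ∈ PP a c, if bef L (g p.2) (g p.1) then 1 else 0

def base (a c : Fin (n + 1)) (L : List (Fin (n + 1) × Fin (n + 1))) (x y : Fin (n + 1))
    (g : Perm (Fin (n + 1))) : ℕ :=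
  ∑ p ∈ PP a c, if bef L (g p.2) (g p.1) ∧ ¬ bad x y (g p.1) (g p.2) then 1 else 0

theorem pt_old (L : List (Fin (n + 1) × Fin (n + 1))) (x y u v : Fin (n + 1)) (hxy : x < y)
    (hn : (x, y) ∉ L) :
    (if bef L v u then 1 else 0 : ℕ) =
      (if bef L v u ∧ ¬ bad x y u v then 1 else 0) + (if u = y ∧ v = x then 1 else 0) := by
  have hyx : ¬ y < x := not_lt.mpr hxy.le
  by_cases h1 : u = y ∧ v = x
  · obtain ⟨rfl, rfl⟩ := h1
    have : bef L v u := Or.inl ⟨hxy, hn⟩
    simp [this, bad]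
  · by_cases h2 : u = x ∧ v = y
    · obtain ⟨rfl, rfl⟩ := h2
      have : ¬ bef L v u := by
        rintro (⟨h, -⟩ | ⟨-, h⟩)
        · exact hyx h
        · exact hn h
      simp [this, hxy.ne]
    · have : ¬ bad x y u v := by
        rintro (h | h)
        · exact h2 h
        · exact h1 h
      simp [this, h1]

theorem pt_new (L : List (Fin (n + 1) × Fin (n + 1))) (x y u v : Fin (n + 1)) (hxy : x < y)
    (hn : (x, y) ∉ L) :
    (if bef (L ++ [(x, y)]) v u then 1 else 0 : ℕ) =
      (if bef L v u ∧ ¬ bad x y u v then 1 else 0) + (if u = x ∧ v = y then 1 else 0) := by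
  have hyx : ¬ y < x := not_lt.mpr hxy.le
  by_cases h1 : u = y ∧ v = x
  · obtain ⟨rfl, rfl⟩ := h1
    have : ¬ bef (L ++ [(v, u)]) v u := by
      rintro (⟨-, h⟩ | ⟨h, -⟩)
      · exact h (by simp)
      · exact hyx h
    simp [this, bad, hxy.ne']
  · by_cases h2 : u = x ∧ v = y
    · obtain ⟨rfl, rfl⟩ := h2
      have : bef (L ++ [(u, v)]) v u := Or.inr ⟨hxy, by simp⟩
      simp [this, bad]
    · have hb : ¬ bad x y u v := by
        rintro (h | h)
        · exact h2 h
        · exact h1 h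
      have h3 : bef (L ++ [(x, y)]) v u ↔ bef L v u := by
        unfold bef
        have e1 : (v, u) ∈ L ++ [(x, y)] ↔ (v, u) ∈ L := by
          simp only [List.mem_append, List.mem_singleton, Prod.mk.injEq]
          constructor
          · rintro (h | ⟨h, h'⟩)
            · exact h
            · exact absurd ⟨h', h⟩ h1
          · exact Or.inl
        have e2 : (u, v) ∈ L ++ [(x, y)] ↔ (u, v) ∈ L := by
          simp only [List.mem_append, List.mem_singleton, Prod.mk.injEq]
          constructor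
          · rintro (h | ⟨h, h'⟩)
            · exact h
            · exact absurd ⟨h, h'⟩ h2
          · exact Or.inl
        rw [e1, e2]
      simp [h3, hb, h2]

theorem eq_pair (g : Perm (Fin (n + 1))) (u v : Fin (n + 1)) (p : Fin (n + 1) × Fin (n + 1)) :
    (g p.1 = u ∧ g p.2 = v) ↔ p = (g.symm u, g.symm v) := by
  rw [Prod.ext_iff]
  simp only [Equiv.eq_symm_apply]

theorem stat_old (a c : Fin (n + 1)) (L : List (Fin (n + 1) × Fin (n + 1))) (x y : Fin (n + 1))
    (hxy : x < y) (hn : (x, y) ∉ L) (g : Perm (Fin (n + 1))) :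
    stat a c L g = base a c L x y g + if (g.symm y, g.symm x) ∈ PP a c then 1 else 0 := by
  unfold stat base
  rw [← Finset.sum_ite_eq' (PP a c) (g.symm y, g.symm x) (fun _ => 1), ← Finset.sum_add_distrib]
  refine Finset.sum_congr rfl fun p _ => ?_
  rw [pt_old L x y _ _ hxy hn]
  simp only [eq_pair g y x p]

theorem stat_new (a c : Fin (n + 1)) (L : List (Fin (n + 1) × Fin (n + 1))) (x y : Fin (n + 1))
    (hxy : x < y) (hn : (x, y) ∉ L) (g : Perm (Fin (n + 1))) :
    stat a c (L ++ [(x, y)]) g =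
      base a c L x y g + if (g.symm x, g.symm y) ∈ PP a c then 1 else 0 := by
  unfold stat base
  rw [← Finset.sum_ite_eq' (PP a c) (g.symm x, g.symm y) (fun _ => 1), ← Finset.sum_add_distrib]
  refine Finset.sum_congr rfl fun p _ => ?_
  rw [pt_new L x y _ _ hxy hn]
  simp only [eq_pair g x y p]

/-- permutations fixing everything outside `[a, c]` -/
def Fx (a c : Fin (n + 1)) (g : Perm (Fin (n + 1))) : Prop := ∀ z, z < a ∨ c < z → g z = z

theorem Fx.mem {a c : Fin (n + 1)} {g : Perm (Fin (n + 1))} (h : Fx a c g) {w : Fin (n + 1)}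
    (h1 : a ≤ w) (h2 : w ≤ c) : a ≤ g w ∧ g w ≤ c := by
  by_contra hc
  rw [not_and_or, not_le, not_le] at hc
  have h3 := h (g w) hc
  have h4 := g.injective h3
  rw [h4] at hc
  rcases hc with hc | hc
  · exact absurd hc (not_lt.mpr h1)
  · exact absurd hc (not_lt.mpr h2)

theorem Fx.memsymm {a c : Fin (n + 1)} {g : Perm (Fin (n + 1))} (h : Fx a c g) {w : Fin (n + 1)}
    (h1 : a ≤ w) (h2 : w ≤ c) : a ≤ g.symm w ∧ g.symm w ≤ c := by
  by_contra hc
  rw [not_and_or, not_le, not_le] at hc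
  have h3 := h (g.symm w) hc
  rw [Equiv.apply_symm_apply] at h3
  rw [← h3] at hc
  rcases hc with hc | hc
  · exact absurd hc (not_lt.mpr h1)
  · exact absurd hc (not_lt.mpr h2)

theorem Fx.swap {a c x y : Fin (n + 1)} {g : Perm (Fin (n + 1))} (h : Fx a c g)
    (hax : a ≤ x) (hxc : x ≤ c) (hay : a ≤ y) (hyc : y ≤ c) : Fx a c (Equiv.swap x y * g) := by
  intro z hz
  rw [Perm.mul_apply, h z hz]
  refine Equiv.swap_apply_of_ne_of_ne ?_ ?_
  · rintro rfl
    rcases hz with hz | hz
    · exact absurd hz (not_lt.mpr hax)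
    · exact absurd hz (not_lt.mpr hxc)
  · rintro rfl
    rcases hz with hz | hz
    · exact absurd hz (not_lt.mpr hay)
    · exact absurd hz (not_lt.mpr hyc)

/-- what `Val` says about one crossing -/
def Ok (a c : Fin (n + 1)) (P : List (Fin (n + 1) × Fin (n + 1))) (x y : Fin (n + 1)) : Prop :=
  a ≤ x ∧ x < y ∧ y ≤ c ∧ (x, y) ∉ P ∧
    (∀ z, y < z → z ≤ c → ((y, z) ∈ P ↔ (x, z) ∈ P)) ∧
    (∀ z, a ≤ z → z < x → ((z, x) ∈ P ↔ (z, y) ∈ P)) ∧
    (∀ z, x < z → z < y → ((x, z) ∈ P ↔ (z, y) ∉ P))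

theorem bef_iff {a c : Fin (n + 1)} {P : List (Fin (n + 1) × Fin (n + 1))} {x y : Fin (n + 1)}
    (h : Ok a c P x y) {w : Fin (n + 1)} (h1 : a ≤ w) (h2 : w ≤ c) (hx : w ≠ x) (hy : w ≠ y) :
    (bef P w x ↔ bef P w y) ∧ (bef P x w ↔ bef P y w) := by
  obtain ⟨hax, hxy, hyc, hn, i1, i2, i3⟩ := h
  unfold bef
  rcases lt_or_gt_of_ne hx with hwx | hwx
  · have hwy : w < y := hwx.trans hxy
    have := i2 w h1 hwx
    simp [hwx, hwy, not_lt.mpr hwx.le, not_lt.mpr hwy.le, this]
  · rcases lt_or_gt_of_ne hy with hwy | hwy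
    · have := i3 w hwx hwy
      simp [hwx, hwy, not_lt.mpr hwx.le, not_lt.mpr hwy.le, this]
    · have := i1 w hwy h2
      simp [hwx, hwy, not_lt.mpr hwx.le, not_lt.mpr hwy.le, this]

theorem base_pt {a c : Fin (n + 1)} {P : List (Fin (n + 1) × Fin (n + 1))} {x y : Fin (n + 1)}
    (h : Ok a c P x y) {u v : Fin (n + 1)} (hu : a ≤ u ∧ u ≤ c) (hv : a ≤ v ∧ v ≤ c)
    (huv : u ≠ v) :
    (bef P (swap x y v) (swap x y u) ∧ ¬ bad x y (swap x y u) (swap x y v)) ↔
      (bef P v u ∧ ¬ bad x y u v) := by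
  have hxy : x ≠ y := h.2.1.ne
  by_cases u1 : u = x
  · subst u1
    by_cases v1 : v = y
    · subst v1
      simp [bad]
    · have v2 : v ≠ u := huv.symm
      have := bef_iff h hv.1 hv.2 v2 v1
      rw [swap_apply_left, swap_apply_of_ne_of_ne v2 v1, this.1]
      simp [bad, v1, v2, hxy]
  · by_cases u2 : u = y
    · subst u2
      by_cases v1 : v = x
      · subst v1
        simp [bad]
      · have v2 : v ≠ u := huv.symm
        have := bef_iff h hv.1 hv.2 v1 v2
        rw [swap_apply_right, swap_apply_of_ne_of_ne v1 v2, this.1]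
        simp [bad, v1, v2, hxy.symm]
    · have := bef_iff h hu.1 hu.2 u1 u2
      rw [swap_apply_of_ne_of_ne u1 u2]
      by_cases v1 : v = x
      · subst v1
        rw [swap_apply_left, this.2]
        simp [bad, u1, u2]
      · by_cases v2 : v = y
        · subst v2
          rw [swap_apply_right, this.2]
          simp [bad, u1, u2]
        · rw [swap_apply_of_ne_of_ne v1 v2]

theorem base_swap {a c : Fin (n + 1)} {P : List (Fin (n + 1) × Fin (n + 1))} {x y : Fin (n + 1)}
    (h : Ok a c P x y) {g : Perm (Fin (n + 1))} (hg : Fx a c g) :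
    base a c P x y (swap x y * g) = base a c P x y g := by
  unfold base
  refine Finset.sum_congr rfl fun p hp => ?_
  have hp' : a < p.1 ∧ p.1 < p.2 ∧ p.2 ≤ c := by simpa [PP] using hp
  have hu := hg.mem (w := p.1) hp'.1.le (hp'.2.1.le.trans hp'.2.2)
  have hv := hg.mem (w := p.2) (hp'.1.trans hp'.2.1).le hp'.2.2
  have huv : g p.1 ≠ g p.2 := fun e => hp'.2.1.ne (g.injective e)
  exact if_congr (base_pt h hu hv huv) rfl rfl

instance (a c : Fin (n + 1)) (g : Perm (Fin (n + 1))) : Decidable (Fx a c g) := by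
  unfold Fx; infer_instance

def Gr (a c z : Fin (n + 1)) : Finset (Perm (Fin (n + 1))) :=
  Finset.univ.filter fun g => Fx a c g ∧ g a = z

def wt (q : ℤ) (a c : Fin (n + 1)) (L : List (Fin (n + 1) × Fin (n + 1)))
    (g : Perm (Fin (n + 1))) : ℤ := q ^ stat a c L g * C q L g

theorem mem_Gr {a c z : Fin (n + 1)} {g : Perm (Fin (n + 1))} :
    g ∈ Gr a c z ↔ Fx a c g ∧ g a = z := by simp [Gr]

theorem swap_swap_mul (x y : Fin (n + 1)) (g : Perm (Fin (n + 1))) :
    swap x y * (swap x y * g) = g := by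
  rw [← mul_assoc, swap_mul_self, one_mul]

theorem mem_Gr_swap {a c x y z : Fin (n + 1)} (hax : a ≤ x) (hxc : x ≤ c) (hay : a ≤ y)
    (hyc : y ≤ c) {g : Perm (Fin (n + 1))} :
    g ∈ Gr a c z ↔ swap x y * g ∈ Gr a c (swap x y z) := by
  rw [mem_Gr, mem_Gr]
  constructor
  · rintro ⟨h1, h2⟩
    exact ⟨h1.swap hax hxc hay hyc, by rw [Perm.mul_apply, h2]⟩
  · rintro ⟨h1, h2⟩
    have h3 := h1.swap hax hxc hay hyc
    rw [swap_swap_mul] at h3
    refine ⟨h3, ?_⟩
    rw [Perm.mul_apply] at h2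
    exact (swap x y).injective h2

theorem symm_swap_left (x y : Fin (n + 1)) (g : Perm (Fin (n + 1))) :
    (swap x y * g).symm x = g.symm y := by
  rw [Equiv.symm_apply_eq, Perm.mul_apply, Equiv.apply_symm_apply, swap_apply_right]

theorem symm_swap_right (x y : Fin (n + 1)) (g : Perm (Fin (n + 1))) :
    (swap x y * g).symm y = g.symm x := by
  rw [Equiv.symm_apply_eq, Perm.mul_apply, Equiv.apply_symm_apply, swap_apply_left]

theorem C_append (q : ℤ) (L : List (Fin (n + 1) × Fin (n + 1))) (e : Fin (n + 1) × Fin (n + 1)) :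
    C q (L ++ [e]) = cstep q (C q L) e := by
  unfold C
  rw [List.foldl_append]
  rfl

/-- pointwise recursion, the image of `a` not among `x`, `y` -/
theorem wt_pt {q : ℤ} {a c x y : Fin (n + 1)} {P : List (Fin (n + 1) × Fin (n + 1))}
    (h : Ok a c P x y) {g : Perm (Fin (n + 1))} (hg : Fx a c g) (hx : g a ≠ x) (hy : g a ≠ y) :
    wt q a c (P ++ [(x, y)]) g =
      (if g.symm y < g.symm x then 1 else q) * (wt q a c P g + wt q a c P (swap x y * g)) := by
  have hxy := h.2.1
  have hn := h.2.2.2.1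
  have hxc : x ≤ c := hxy.le.trans h.2.2.1
  have hay : a ≤ y := h.1.trans hxy.le
  have sx := hg.memsymm h.1 hxc
  have sy := hg.memsymm hay h.2.2.1
  have sx' : a < g.symm x := lt_of_le_of_ne sx.1 (fun e => hx (by
    rw [e, Equiv.apply_symm_apply]))
  have sy' : a < g.symm y := lt_of_le_of_ne sy.1 (fun e => hy (by
    rw [e, Equiv.apply_symm_apply]))
  have b := base_swap h hg
  unfold wt
  rw [C_append, stat_new a c P x y hxy hn, stat_old a c P x y hxy hn,
    stat_old a c P x y hxy hn, b, symm_swap_left, symm_swap_right]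
  unfold cstep
  simp only
  have hne : g.symm x ≠ g.symm y := fun e => hxy.ne (g.symm.injective e)
  by_cases hlt : g.symm y < g.symm x
  · have h1 : (g.symm y, g.symm x) ∈ PP a c := by simp [PP, sy', hlt, sx.2]
    have h2 : (g.symm x, g.symm y) ∉ PP a c := by simp [PP, not_lt.mpr hlt.le]
    simp only [h1, h2, if_true, if_false, hlt]
    ring
  · have hlt' : g.symm x < g.symm y := lt_of_le_of_ne (not_lt.mp hlt) hne
    have h1 : (g.symm x, g.symm y) ∈ PP a c := by simp [PP, sx', hlt', sy.2]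
    have h2 : (g.symm y, g.symm x) ∉ PP a c := by simp [PP, hlt]
    simp only [h1, h2, if_true, if_false, hlt]
    ring

/-- pointwise recursion, `g a = x` -/
theorem wt_x {q : ℤ} {a c x y : Fin (n + 1)} {P : List (Fin (n + 1) × Fin (n + 1))}
    (h : Ok a c P x y) {g : Perm (Fin (n + 1))} (hg : Fx a c g) (hx : g a = x) :
    wt q a c (P ++ [(x, y)]) g = wt q a c P g + q * wt q a c P (swap x y * g) := by
  have hxy := h.2.1
  have hn := h.2.2.2.1
  have hxc : x ≤ c := hxy.le.trans h.2.2.1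
  have hay : a ≤ y := h.1.trans hxy.le
  have sy := hg.memsymm hay h.2.2.1
  have sx : g.symm x = a := by rw [← hx, Equiv.symm_apply_apply]
  have b := base_swap h hg
  unfold wt
  rw [C_append, stat_new a c P x y hxy hn, stat_old a c P x y hxy hn,
    stat_old a c P x y hxy hn, b, symm_swap_left, symm_swap_right, sx]
  unfold cstep
  simp only
  rw [sx]
  have h1 : (g.symm y, a) ∉ PP a c := by
    simp only [PP, Finset.mem_filter, not_and, Finset.mem_univ, true_and]
    intro h1 h2
    exact absurd h2 (not_lt.mpr h1.le)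
  have h2 : (a, g.symm y) ∉ PP a c := by simp [PP]
  simp only [h1, h2, if_false, not_lt.mpr sy.1]
  ring

/-- pointwise recursion, `g a = y` -/
theorem wt_y {q : ℤ} {a c x y : Fin (n + 1)} {P : List (Fin (n + 1) × Fin (n + 1))}
    (h : Ok a c P x y) {g : Perm (Fin (n + 1))} (hg : Fx a c g) (hy : g a = y) :
    wt q a c (P ++ [(x, y)]) g = wt q a c P (swap x y * g) + q * wt q a c P g := by
  have hxy := h.2.1
  have hn := h.2.2.2.1
  have hxc : x ≤ c := hxy.le.trans h.2.2.1
  have hay : a ≤ y := h.1.trans hxy.le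
  have sx := hg.memsymm h.1 hxc
  have sy : g.symm y = a := by rw [← hy, Equiv.symm_apply_apply]
  have b := base_swap h hg
  have hne : g.symm x ≠ g.symm y := fun e => hxy.ne (g.symm.injective e)
  unfold wt
  rw [C_append, stat_new a c P x y hxy hn, stat_old a c P x y hxy hn,
    stat_old a c P x y hxy hn, b, symm_swap_left, symm_swap_right, sy]
  unfold cstep
  simp only
  rw [sy] at hne ⊢
  have sx' : a < g.symm x := lt_of_le_of_ne sx.1 hne.symm
  have h1 : (g.symm x, a) ∉ PP a c := by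
    simp only [PP, Finset.mem_filter, not_and, Finset.mem_univ, true_and]
    intro h1 h2
    exact absurd h2 (not_lt.mpr h1.le)
  have h2 : (a, g.symm x) ∉ PP a c := by simp [PP]
  simp only [h1, h2, if_false, sx', if_true]
  ring

theorem sum_swap {a c x y : Fin (n + 1)} (hax : a ≤ x) (hxc : x ≤ c) (hay : a ≤ y)
    (hyc : y ≤ c) (z : Fin (n + 1)) (f : Perm (Fin (n + 1)) → ℤ) :
    ∑ g ∈ Gr a c z, f (swap x y * g) = ∑ g ∈ Gr a c (swap x y z), f g :=
  Finset.sum_equiv (Equiv.mulLeft (swap x y))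
    (fun g => by rw [Equiv.coe_mulLeft]; exact mem_Gr_swap hax hxc hay hyc)
    (fun g _ => by rw [Equiv.coe_mulLeft])

def XX (q : ℤ) (a c : Fin (n + 1)) (L : List (Fin (n + 1) × Fin (n + 1))) (z : Fin (n + 1)) : ℤ :=
  ∑ g ∈ Gr a c z, wt q a c L g

theorem XX_step {q : ℤ} {a c x y : Fin (n + 1)} {P : List (Fin (n + 1) × Fin (n + 1))}
    (h : Ok a c P x y) : XX q a c (P ++ [(x, y)]) = vstep q (XX q a c P) (x, y) := by
  have hxy := h.2.1
  have hax := h.1
  have hyc := h.2.2.1
  have hxc : x ≤ c := hxy.le.trans h.2.2.1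
  have hay : a ≤ y := h.1.trans hxy.le
  funext z
  unfold vstep XX
  simp only
  by_cases hx : z = x
  · subst hx
    rw [if_pos (Or.inl rfl), Finset.sum_congr rfl (fun g hg => wt_x h (mem_Gr.mp hg).1
      (mem_Gr.mp hg).2), Finset.sum_add_distrib, ← Finset.mul_sum,
      sum_swap hax hxc hay hyc, swap_apply_left]
  · by_cases hy : z = y
    · subst hy
      rw [if_pos (Or.inr rfl), Finset.sum_congr rfl (fun g hg => wt_y h (mem_Gr.mp hg).1
        (mem_Gr.mp hg).2), Finset.sum_add_distrib, ← Finset.mul_sum,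
        sum_swap hax hxc hay hyc, swap_apply_right]
    · rw [if_neg (by rintro (h | h); exacts [hx h, hy h])]
      have e1 : ∀ g ∈ Gr a c z, wt q a c (P ++ [(x, y)]) g =
          (if g.symm y < g.symm x then 1 else q) * wt q a c P g +
            (if (swap x y * g).symm x < (swap x y * g).symm y then 1 else q) *
              wt q a c P (swap x y * g) := by
        intro g hg
        obtain ⟨h1, h2⟩ := mem_Gr.mp hg
        rw [wt_pt h h1 (h2 ▸ hx) (h2 ▸ hy), symm_swap_left, symm_swap_right]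
        ring
      rw [Finset.sum_congr rfl e1, Finset.sum_add_distrib,
        sum_swap hax hxc hay hyc z (fun g => (if g.symm x < g.symm y then 1 else q) *
          wt q a c P g), swap_apply_of_ne_of_ne hx hy, ← Finset.sum_add_distrib, Finset.mul_sum]
      refine Finset.sum_congr rfl fun g _ => ?_
      have hne : g.symm x ≠ g.symm y := fun e => hxy.ne (g.symm.injective e)
      rcases lt_or_gt_of_ne hne with hlt | hlt
      · rw [if_neg (not_lt.mpr hlt.le), if_pos hlt]
        ring
      · rw [if_pos hlt, if_neg (not_lt.mpr hlt.le)]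
        ring

theorem stat_nil (a c : Fin (n + 1)) : stat a c ([] : List (Fin (n + 1) × Fin (n + 1))) 1 = 0 := by
  unfold stat
  refine Finset.sum_eq_zero fun p hp => ?_
  have hp' : a < p.1 ∧ p.1 < p.2 ∧ p.2 ≤ c := by simpa [PP] using hp
  rw [if_neg]
  simp [bef, hp'.2.1.le]

theorem XX_nil (q : ℤ) (a c : Fin (n + 1)) :
    XX q a c [] = Pi.single a 1 := by
  funext z
  unfold XX wt
  by_cases hz : z = a
  · subst hz
    rw [Pi.single_eq_same, Finset.sum_eq_single (1 : Perm (Fin (n + 1)))]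
    · rw [stat_nil]
      simp [C]
    · intro g _ hg
      simp [C, hg]
    · intro h
      exact absurd (mem_Gr.mpr ⟨fun _ _ => rfl, rfl⟩) h
  · rw [Pi.single_eq_of_ne hz]
    refine Finset.sum_eq_zero fun g hg => ?_
    have : g ≠ 1 := by
      rintro rfl
      exact hz (mem_Gr.mp hg).2.symm
    simp [C, this]

theorem fold_eq (q : ℤ) (a c : Fin (n + 1)) (L : List (Fin (n + 1) × Fin (n + 1)))
    (hL : Val a c L) : L.foldl (vstep q) (Pi.single a 1) = XX q a c L := by
  induction L using List.reverseRecOn with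
  | nil => rw [XX_nil]; rfl
  | append_singleton P e ih =>
    have h1 : Val a c P := by
      intro P' e' S' h
      exact hL P' e' (S' ++ [e]) (by rw [h]; simp)
    have h2 := hL P e [] (by simp)
    obtain ⟨x, y⟩ := e
    have h3 : Ok a c P x y := h2
    rw [List.foldl_append, ih h1, XX_step h3]
    rfl

theorem stat_congr (a c : Fin (n + 1)) {L L' : List (Fin (n + 1) × Fin (n + 1))}
    (h : ∀ e, e ∈ L ↔ e ∈ L') (g : Perm (Fin (n + 1))) : stat a c L g = stat a c L' g := by
  unfold stat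
  refine Finset.sum_congr rfl fun p _ => if_congr ?_ rfl rfl
  unfold bef
  rw [h, h]

theorem t_D : S_D := by
  intro n q a c L L' hL hL' hm hC z
  rw [fold_eq q a c L hL, fold_eq q a c L' hL']
  unfold XX wt
  refine Finset.sum_congr rfl fun g hg => ?_
  rw [stat_congr a c hm, hC g (mem_Gr.mp hg).1]

end Pool.Agent.X191.BS
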